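import Pool.Agent.H14.JnC

namespace Pool.Agent.Results.MP_0e1483_co.FlexMorphic
open Pool.Agent.H14.JnC

theorem result :
    sSup {f | ∃ u, Morphic u ∧ SquareFree u ∧ f = flex u} = 3 / 16 :=
  both.1

end Pool.Agent.Results.MP_0e1483_co.FlexMorphic
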